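import Pool.Agent.helper88.RL.SpecW
import Pool.Agent.helper26.RF.WIN

set_option autoImplicit false

namespace Pool.Agent.RL

open Finset Pool.Agent.helper3.FT Pool.Agent.T6 Pool.Agent.RF

theorem VIN_p (k : OO) (hck : IsCoprime k (star k)) (p : ℤ) (hp : Prime p) (hN : p ∣ k.norm) : ¬ p ∣ (k ^ 3).im := by
  intro h
  have h1 : (k ^ 3).norm = k.norm ^ 3 := by rw [map_pow]
  have h2 : (k ^ 3).norm = (k ^ 3).re * (k ^ 3).re + 1 * (k ^ 3).re * (k ^ 3).im - 1 * (k ^ 3).im * (k ^ 3).im := rfl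
  have h3 : p ∣ (k ^ 3).re * (k ^ 3).re := by
    have h4 : (k ^ 3).re * (k ^ 3).re = k.norm ^ 3 - (k ^ 3).im * ((k ^ 3).re - (k ^ 3).im) := by
      rw [← h1, h2]
      ring
    rw [h4]
    exact dvd_sub (hN.trans (dvd_pow_self _ (by norm_num))) (h.mul_right _)
  have h4 : p ∣ (k ^ 3).re := by
    rcases hp.dvd_or_dvd h3 with h5 | h5 <;> exact h5
  obtain ⟨a, ha⟩ := h4
  obtain ⟨b, hb⟩ := h
  have h6 : k ^ 3 = (p : OO) * ⟨a, b⟩ := by
    apply QuadraticAlgebra.ext
    · rw [ha, QuadraticAlgebra.re_mul, QuadraticAlgebra.re_intCast, QuadraticAlgebra.im_intCast]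
      simp
    · rw [hb, QuadraticAlgebra.im_mul, QuadraticAlgebra.re_intCast, QuadraticAlgebra.im_intCast]
      simp
  have h7 : (p : OO) ∣ k ^ 3 := ⟨_, h6⟩
  have h8 : (p : OO) ∣ star k ^ 3 := by
    refine ⟨star (⟨a, b⟩ : OO), ?_⟩
    have h3 := congrArg star h6
    rw [star_mul, star_pow, star_intCast, mul_comm] at h3
    exact h3
  have hcube : IsCoprime (k ^ 3) (star k ^ 3) := hck.pow
  have h9 : IsUnit (p : OO) := hcube.isUnit_of_dvd' h7 h8
  obtain ⟨y, hy⟩ := h9.exists_right_inv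
  have h10 := congrArg QuadraticAlgebra.re hy
  rw [QuadraticAlgebra.re_mul, QuadraticAlgebra.re_intCast, QuadraticAlgebra.im_intCast] at h10
  simp only [Int.cast_id, mul_zero, zero_mul, add_zero] at h10
  have h11 : (1 : OO).re = 1 := rfl
  rw [h11] at h10
  exact hp.not_dvd_one ⟨_, h10.symm⟩

theorem VIN : VIN_stmt := by
  intro k hck h10
  set N : ℤ := k.norm with hN
  have hkk : k * star k = (N : OO) := WIN_norm k
  have h5n : Nat.Coprime N.natAbs 5 := Nat.Coprime.coprime_dvd_right (by norm_num) h10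
  have h2n : Nat.Coprime N.natAbs 2 := Nat.Coprime.coprime_dvd_right (by norm_num) h10
  have hc5 : IsCoprime N 5 := Int.isCoprime_iff_gcd_eq_one.2 h5n
  have hc2 : IsCoprime N 2 := Int.isCoprime_iff_gcd_eq_one.2 h2n
  have hcube : IsCoprime (k ^ 3) (star k ^ 3) := hck.pow
  refine ⟨?_, ?_, ?_, ?_⟩
  · obtain ⟨a, b, hab⟩ := hc5
    have hab' : (a : OO) * (N : OO) + (b : OO) * ((5 : ℤ) : OO) = 1 := by exact_mod_cast congrArg (Int.cast : ℤ → OO) hab
    refine ⟨(a : OO) * star k, (b : OO) * r5, ?_⟩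
    rw [← hab', ← hkk, ← WIN_r5]
    ring
  · obtain ⟨a, b, hab⟩ := hc2
    have hab' : (a : OO) * (N : OO) + (b : OO) * ((2 : ℤ) : OO) = 1 := by exact_mod_cast congrArg (Int.cast : ℤ → OO) hab
    refine ⟨(a : OO) * star k, (b : OO), ?_⟩
    rw [← hab', ← hkk]
    push_cast
    ring
  · intro n
    have h1 : ((N.natAbs : ℤ) ^ 3 ∣ n) ↔ N ^ 3 ∣ n := by
      rw [← Int.natAbs_dvd_natAbs, ← Int.natAbs_dvd_natAbs (a := N ^ 3), Int.natAbs_pow, Int.natAbs_pow, Int.natAbs_natCast]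
    rw [h1]
    constructor
    · intro h
      have h2 : star k ^ 3 ∣ (n : OO) := by
        obtain ⟨c, hc⟩ := h
        refine ⟨star c, ?_⟩
        have h3 := congrArg star hc
        rw [star_mul, star_pow, star_intCast, mul_comm] at h3
        exact h3
      have h3 : k ^ 3 * star k ^ 3 ∣ (n : OO) := hcube.mul_dvd h h2
      rw [← mul_pow, hkk] at h3
      have h4 : algebraMap ℤ OO (N ^ 3) ∣ algebraMap ℤ OO n := by
        rw [eq_intCast, eq_intCast, Int.cast_pow]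
        exact h3
      exact QuadraticAlgebra.algebraMap_dvd_iff_dvd.1 h4
    · rintro ⟨c, rfl⟩
      refine ⟨star k ^ 3 * (c : OO), ?_⟩
      rw [Int.cast_mul, Int.cast_pow, ← hkk]
      ring
  · intro x
    have hcY0 : IsCoprime N (k ^ 3).im := by
      rw [Int.isCoprime_iff_gcd_eq_one]
      by_contra hne
      have hne' : ¬ Nat.Coprime N.natAbs (k ^ 3).im.natAbs := hne
      obtain ⟨p, hp, hpN, hpY⟩ := Nat.Prime.not_coprime_iff_dvd.1 hne'
      refine VIN_p k hck (p : ℤ) (Nat.prime_iff_prime_int.1 hp) ?_ ?_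
      · exact Int.natCast_dvd.2 hpN
      · exact Int.natCast_dvd.2 hpY
    have hcY : IsCoprime (N ^ 3) (k ^ 3).im := hcY0.pow_left
    obtain ⟨m, t, hmt⟩ := hcY
    refine ⟨x.re - x.im * t * (k ^ 3).re, ?_⟩
    have e1 : k ^ 3 = ((k ^ 3).re : OO) + ((k ^ 3).im : OO) * ph := by
      unfold ph
      ext
      · simp
      · simp
    have e2 : x = (x.re : OO) + (x.im : OO) * ph := by
      unfold ph
      ext
      · simp
      · simp
    have e3 : (m : OO) * (N : OO) ^ 3 + (t : OO) * ((k ^ 3).im : OO) = 1 := by exact_mod_cast congrArg (Int.cast : ℤ → OO) hmt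
    refine ⟨(x.im : OO) * ((t : OO) + (m : OO) * star k ^ 3 * ph), ?_⟩
    have e4 : (N : OO) ^ 3 = k ^ 3 * star k ^ 3 := by rw [← hkk, mul_pow]
    rw [e4] at e3
    push_cast
    generalize hX : ((k ^ 3).re : OO) = X at e1 ⊢
    generalize hY : ((k ^ 3).im : OO) = Y at e1 e3
    nth_rewrite 1 [e2]
    linear_combination (-(x.im : OO) * ph) * e3 - (x.im : OO) * (t : OO) * e1

end Pool.Agent.RL
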