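import Pool.Agent.helper88.RL.SpecL

set_option autoImplicit false

namespace Pool.Agent.RL

open Finset Pool.Agent.helper3.FT Pool.Agent.T6 Pool.Agent.RF

theorem N2_add (k a b z w : OO) : FF k (a + b) (z + w) = FF k a z + FF k b w := by
  unfold FF
  rw [star_add]
  ring

theorem N2_neg (k a z : OO) : FF k (-a) (-z) = -FF k a z := by
  unfold FF
  rw [star_neg]
  ring

theorem N2_starint (n : ℤ) : star ((n : ℤ) : OO) = ((n : ℤ) : OO) := by
  apply QuadraticAlgebra.ext
  · rw [QuadraticAlgebra.re_star, QuadraticAlgebra.re_intCast, QuadraticAlgebra.im_intCast]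
    simp
  · rw [QuadraticAlgebra.im_star, QuadraticAlgebra.im_intCast]
    simp

theorem N2_mul (n : ℤ) (k a z : OO) : FF k ((n : OO) * a) ((n : OO) * z) = (n : OO) * FF k a z := by
  unfold FF
  rw [star_mul, N2_starint]
  ring

theorem N2_va (n : ℤ) (v : V4) : va4 (n • v) = (n : OO) * va4 v ∧ vz4 (n • v) = (n : OO) * vz4 v := by
  constructor
  · apply QuadraticAlgebra.ext
    · rw [QuadraticAlgebra.re_mul, QuadraticAlgebra.re_intCast, QuadraticAlgebra.im_intCast]
      simp [va4]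
    · rw [QuadraticAlgebra.im_mul, QuadraticAlgebra.re_intCast, QuadraticAlgebra.im_intCast]
      simp [va4]
  · apply QuadraticAlgebra.ext
    · rw [QuadraticAlgebra.re_mul, QuadraticAlgebra.re_intCast, QuadraticAlgebra.im_intCast]
      simp [vz4]
    · rw [QuadraticAlgebra.im_mul, QuadraticAlgebra.re_intCast, QuadraticAlgebra.im_intCast]
      simp [vz4]

theorem N2_cast (d : ℕ) : ((d : ℕ) : OO) = (((d : ℕ) : ℤ) : OO) := by
  push_cast
  rfl

theorem N2_shift (k t a z : OO) (ht : star t = t) : t ∣ FF (k + t) a z - FF k a z := by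
  refine ⟨5 * a * (3 * k ^ 2 + 3 * k * t + t ^ 2) + 2 * star ph * z * (k * (2 * star k + t) + (star k + t) ^ 2) -
    star z * (3 * star k ^ 2 + 3 * star k * t + t ^ 2), ?_⟩
  unfold FF
  rw [star_add, ht]
  ring

theorem N2_zs (d r : ℕ) (v : V4) (n : ℤ) : FF ⟨(r : ℤ), 1⟩ (va4 (n • v)) (vz4 (n • v)) =
    (n : OO) * FF ⟨(r : ℤ), 1⟩ (va4 v) (vz4 v) := by
  rw [(N2_va n v).1, (N2_va n v).2, N2_mul]

theorem N2_cancel (m : ℤ) (hm : m ≠ 0) (x y : OO) (h : (m : OO) * x = (m : OO) * y) : x = y := by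
  have h1 := congrArg QuadraticAlgebra.re h
  have h2 := congrArg QuadraticAlgebra.im h
  rw [QuadraticAlgebra.re_mul, QuadraticAlgebra.re_mul, QuadraticAlgebra.re_intCast, QuadraticAlgebra.im_intCast] at h1
  rw [QuadraticAlgebra.im_mul, QuadraticAlgebra.im_mul, QuadraticAlgebra.re_intCast, QuadraticAlgebra.im_intCast] at h2
  simp only [Int.cast_id, mul_zero, zero_mul, add_zero] at h1 h2
  apply QuadraticAlgebra.ext
  · exact mul_left_cancel₀ hm h1
  · exact mul_left_cancel₀ hm h2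

theorem N2 : N2_stmt := by
  refine ⟨?_, ?_, ?_, ?_, ?_, ?_, ?_⟩
  · intro d r
    unfold InG
    have e : FF ⟨(r : ℤ), 1⟩ (va4 0) (vz4 0) = 0 := by
      have h1 : va4 0 = 0 := rfl
      have h2 : vz4 0 = 0 := rfl
      rw [h1, h2]
      unfold FF
      rw [star_zero]
      ring
    rw [e]
    exact dvd_zero _
  · intro d r v w hv hw
    unfold InG at *
    have e1 : va4 (v + w) = va4 v + va4 w := rfl
    have e2 : vz4 (v + w) = vz4 v + vz4 w := rfl
    have e3 : va4 (-v) = -va4 v := rfl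
    have e4 : vz4 (-v) = -vz4 v := rfl
    rw [e1, e2, e3, e4, N2_add, N2_neg]
    exact ⟨dvd_add hv hw, (dvd_neg).2 hv⟩
  · intro d r v k hv
    unfold InG at *
    rw [N2_zs d r v k]
    exact Dvd.dvd.mul_left hv _
  · intro d r v
    unfold InG
    rw [N2_zs d r v d, ← N2_cast]
    exact dvd_mul_right _ _
  · intro d d' r v hd hv
    unfold InG at *
    exact (Nat.cast_dvd_cast hd).trans hv
  · intro d r r' v hr hv
    unfold InG at *
    obtain ⟨c, hc⟩ := (Nat.modEq_iff_dvd.1 hr)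
    have e1 : (⟨(r' : ℤ), 1⟩ : OO) = ⟨(r : ℤ), 1⟩ + (((d : ℤ) * c : ℤ) : OO) := by
      apply QuadraticAlgebra.ext
      · rw [QuadraticAlgebra.re_add, QuadraticAlgebra.re_intCast, ← hc]
        simp
      · rw [QuadraticAlgebra.im_add, QuadraticAlgebra.im_intCast]
        simp
    have h1 := N2_shift (⟨(r : ℤ), 1⟩ : OO) (((d : ℤ) * c : ℤ) : OO) (va4 v) (vz4 v) (N2_starint _)
    rw [← e1] at h1
    have h2 : ((d : ℕ) : OO) ∣ (((d : ℤ) * c : ℤ) : OO) := ⟨((c : ℤ) : OO), by push_cast; rfl⟩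
    have h3 := dvd_add (h2.trans h1) hv
    rwa [sub_add_cancel] at h3
  · intro m d r v hm
    unfold InG
    rw [N2_zs (m * d) r v m]
    have hm' : ((m : ℕ) : ℤ) ≠ 0 := by
      have : 0 < m := hm
      exact_mod_cast this.ne'
    have e1 : ((m * d : ℕ) : OO) = (((m : ℕ) : ℤ) : OO) * ((d : ℕ) : OO) := by
      push_cast
      rfl
    rw [e1]
    constructor
    · rintro ⟨q, hq⟩
      refine ⟨q, N2_cancel m hm' _ _ ?_⟩
      rw [hq]
      ring
    · intro h
      exact mul_dvd_mul_left _ h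

end Pool.Agent.RL
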